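import Pool.Agent.H92.BBC.Main

/-!
# Bloch-Beilinson filtrations: the obstructions vanish or are infinite-dimensional

`𝒱` is the class of smooth projective complex varieties (or any class of smooth proper varieties over
a field `k` closed under products with the properties below), `C` the Chow groups with rational
coefficients (in the form of their formal properties, `IsChowProj`), `H` a Weil cohomology theory
(`IsWeilProj`; for the problem: Betti cohomology), and `N X j` the kernels of the Abel-Jacobi maps
(`IsAbelJacobiKernel`). Let `S^n CH^j(X)` be the smallest system of filtrations which satisfies the
conditions 1, 3 and 4 (`step`): `S^0 = CH^j(X)`, `S^1` the homologically trivial classes,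
`S^2 = N X j`, and `S^(n+1) CH^i(X)` is spanned by the classes `Γ_* z`, `z ∈ S^n CH^j(Z)`, where the
correspondence `Γ` from `Z` to `X` acts as zero on `H^(2j-n)(Z)`. Let `Cov` be a class of varieties
such that every variety `V` is the target of a morphism of non-zero degree from a variety of the
class of the same dimension (`HasCoverings`), for instance the class of the varieties with ample
canonical class.

The conjecture says that `S^(m+1) CH^m(V) = 0` for all `V` and `m`. The *obstructions of level `s`* in
`CH^m(V)` are the classes in `S^(m+1) CH^m(V)` which belong to the `s`-th power of algebraic
equivalence, the span of the classes `Γ_* (c_1 × ⋯ × c_s)` with zero-cycles `c_i` of degree zero on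
curves (`Obstruction`).

Theorem. The following are equivalent:
1. a Bloch-Beilinson filtration (conditions 1-4) exists on the Chow groups of all varieties;
2. for some pairs `(m, s)` with arbitrarily large `m - s` the following holds for all `V` of dimension
   `2 m` in the class `Cov`: the group of the obstructions of level `s` in `CH^m(V)` is
   finite-dimensional up to a countable set, that is, it is contained in `Γ_* J(T) + S` for some curve
   `T`, some `Γ ∈ CH^m(T × V)` and some countable set `S`;
3. the same with the condition that every obstruction `z` of level `s` in `CH^m(V)` with `z × z = 0`
   vanishes;
4. the same with the condition that every homomorphism `Γ_* : J(T) → CH^m(V)`, `T` a curve, with values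
   in the obstructions of level `s`, is zero.

In particular, if for infinitely many `m` the groups `S^(m+1) CH^m(V)`, `V` in `Cov` of dimension
`2 m`, are countable, or representable by abelian varieties, then they vanish for all `V` and `m`.
In other words, if there is no Bloch-Beilinson filtration, then for every pair `(m, s)` with `m - s`
large the groups of obstructions of level `s` in `CH^m(V)`, `dim V = 2 m`, are infinite-dimensional in
the sense of Mumford for suitable `V`.

Known theorems which are hypotheses: `EllipticProducts` (C. Schoen: for `z ≠ 0` there is a zero-cycle
`t` of degree zero on an elliptic curve with `z × t ≠ 0`), `AlbaneseProperty` (Mumford, Roitman: a family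
of cycles with values in a finite-dimensional group factors through the Albanese variety of the base),
and `ZeroCyclesOnProducts`.

The proof: if `z ∈ S^(j+1) CH^j(X)` is not zero, then for suitable elliptic curves `T_i` and zero-cycles
`t_i` of degree zero on them the pull-back of `z × t_1 × ⋯ × t_r`, `r = m - j`, to a variety `V` in
`Cov` is an obstruction `x ≠ 0` of level `s`, with `x × x = 0` since `t_r × t_r = 0`. When `t_(r-1)` and
`t_r` vary, these classes form a family of obstructions parametrised by zero-cycles on the surface
`T_(r-1) × T_r` (`bilinear_vanish`). If the group of obstructions is finite-dimensional up to a countable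
set, this family factors through the Albanese variety of the surface, so it vanishes on the class
`t_(r-1) × t_r` in the Albanese kernel: a contradiction.
-/

open CategoryTheory AlgebraicGeometry

set_option autoImplicit false

universe u v w

namespace Pool.Agent.Results.MP_08891c_ag.InfiniteDimensionalObstructions

open Pool.Agent.H914 Pool.Agent.W492.BB Pool.Agent.TH133 Pool.Agent.Y148.BB
  Pool.Agent.Q72.DP Pool.Agent.Q72.BBF Pool.Agent.H92.BBC

/-- A Bloch-Beilinson filtration exists if and only if, for pairs `(m, s)` with arbitrarily large
`m - s` and all the varieties `V` of dimension `2 m` with ample canonical class (or in any class `Cov`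
which dominates all varieties), the group of obstructions of level `s` in `CH^m(V)` is
finite-dimensional up to a countable set, if and only if it contains no `z ≠ 0` with `z × z = 0`, if and
only if it contains no non-zero homomorphic image `Γ_* J(T)` of the Jacobian variety of a curve. -/
theorem result {k : Type u} [Field k] {𝒱 : VarClass k} (C : TheoryData.{u, v, 0} 𝒱 ℚ)
    [IsChowProj C] {K : Type w} [Field K] (H : WeilTheoryData.{u, v, w} C K) [IsWeilProj H]
    (N : Fam C) (hN : IsAbelJacobiKernel H N) (hP : EllipticProducts H)
    (hZ : ZeroCyclesOnProducts C) (hA : AlbaneseProperty H)
    (Cov : 𝒱.Obj → Prop) (hCov : HasCoverings C Cov) :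
    [∃ F, IsBB H N F,
      InfinitelyPairs Cov fun m s V => SmallAt H m fun z : C.A V => Obstruction H N m s z,
      InfinitelyPairs Cov fun m s V => ∀ z : C.A V, Obstruction H N m s z → C.ext z z = 0 → z = 0,
      InfinitelyPairs Cov fun m s V => NoJacobian H N m s V].TFAE :=
  main hN hP hZ hA hCov

end Pool.Agent.Results.MP_08891c_ag.InfiniteDimensionalObstructions
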