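import Pool.Agent.H92.BBM.Main

/-!
# Bloch-Beilinson filtrations: square-zero obstructions and multilinear families of obstructions

`𝒱` is the class of smooth projective complex varieties (or any class of smooth proper varieties over
a field `k` closed under products), `C` the Chow groups with rational coefficients (in the form of their
formal properties, `IsChowProj`), `H` a Weil cohomology theory (`IsWeilProj`; for the problem: Betti
cohomology), and `N X j` the kernels of the Abel-Jacobi maps (`IsAbelJacobiKernel`). No further theorem
on algebraic cycles is assumed. Let `S^n CH^j(X)` be the smallest system of filtrations which satisfies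
the conditions 1, 3 and 4 (`step`). Let `Cov` be a class of varieties such that every variety is the
target of a morphism of non-zero degree from a variety of the class of the same dimension
(`HasCoverings`), for instance the class of all varieties.

A Bloch-Beilinson filtration exists if and only if the last steps `S^(j+1) CH^j(X)` are all zero. A class
`z` is *mobile* if there are curves `T_1, T_2, …` and zero-cycles `t_i` of degree zero on `T_i`, with
`t_i × t_i = 0`, such that all the products `z × t_1 × ⋯ × t_r` are non-zero. (By a theorem of C. Schoen,
which is not used here, all classes `z ≠ 0` are mobile over the complex numbers.) The *obstructions of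
level `s`* in `CH^m(V)` are the classes in `S^(m+1) CH^m(V)` which belong to the `s`-th power of
algebraic equivalence, the span of the classes `Γ_* (c_1 × ⋯ × c_s)` with zero-cycles `c_i` of degree
zero on curves.

Theorem. For every `n ≥ 1` the following are equivalent:
1. no class in `S^(j+1) CH^j(X)` is mobile, for all `X` and `j`;
2. for some pairs `(m, s)` with arbitrarily large `m - s` and all `V` of dimension `2 m` in the class
   `Cov`, no obstruction `z` of level `s` in `CH^m(V)` with `z × z = 0` is mobile;
3. for some pairs `(m, s)` with arbitrarily large `m - s` and all `V` of dimension `2 m` in the class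
   `Cov`, no `n`-linear family `(t_1, …, t_n) ↦ Γ_* (t_1 × ⋯ × t_n)` of obstructions of level `s` in
   `CH^m(V)`, `Γ ∈ CH^m(T_1 × ⋯ × T_n × V)`, where `t_i` runs through the zero-cycles of degree zero on the
   curve `T_i`, has a mobile value.

Moreover condition 1 holds if a Bloch-Beilinson filtration exists, and it is equivalent to the existence
if all the classes `z ≠ 0` in the groups `S^(j+1) CH^j(X)` are mobile.

So if some obstruction is mobile, then for every `n` and for all pairs `(m, s)`, `s ≥ 1`, with `m - s`
large there is a non-zero `n`-linear family of obstructions of level `s` in `CH^m(V)` for some `V` of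
dimension `2 m` in the class `Cov`. For instance for `n = 1` the group of obstructions contains
a non-zero homomorphic image `Γ_* J(T)` of the Jacobian variety of a curve, and for `n = 2` it is
infinite-dimensional in the sense of Mumford (over `ℂ` a bilinear family `(t_1, t_2) ↦ Γ_* (t_1 × t_2)` with
values in a finite-dimensional group factors through the Albanese variety of `T_1 × T_2`, so it is zero).
-/

open CategoryTheory AlgebraicGeometry

set_option autoImplicit false

universe u v w

namespace Pool.Agent.Results.MP_08891c_ag.MobileObstructions

open Pool.Agent.H914 Pool.Agent.W492.BB Pool.Agent.TH133 Pool.Agent.Y148.BB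
  Pool.Agent.Q72.DP Pool.Agent.Q72.BBF Pool.Agent.H92.BBC Pool.Agent.H92.BBM

/-- For every `n ≥ 1`: the last steps `S^(j+1) CH^j(X)` contain no mobile class if and only if, for pairs
`(m, s)` with arbitrarily large `m - s` and the varieties `V` of dimension `2 m` in the class `Cov`, there is
no mobile square-zero obstruction of level `s` in `CH^m(V)`, if and only if for such pairs there is no
`n`-linear family of obstructions of level `s` with a mobile value. The first condition is necessary for
the existence of a Bloch-Beilinson filtration, and sufficient if the non-zero classes in the last steps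
are mobile. -/
theorem result {k : Type u} [Field k] {𝒱 : VarClass k} (C : TheoryData.{u, v, 0} 𝒱 ℚ)
    [IsChowProj C] {K : Type w} [Field K] (H : WeilTheoryData.{u, v, w} C K) [IsWeilProj H]
    (N : Fam C) (hN : IsAbelJacobiKernel H N) (Cov : 𝒱.Obj → Prop) (hCov : HasCoverings C Cov) :
    (∀ n : ℕ, 1 ≤ n →
      [NoMobileClass H N,
        InfinitelyPairs Cov fun m s V => ∀ z : C.A V, Obstruction H N m s z → C.ext z z = 0 →
          ¬ Mobile H z,
        InfinitelyPairs Cov fun m s V => NoFamily H N n m s V].TFAE) ∧
    ((∃ F, IsBB H N F) → NoMobileClass H N) ∧
    ((∀ (X : 𝒱.Obj) (j : ℕ) (z : C.A X), In (step H N (j + 1)) j z → z ≠ 0 → Mobile H z) →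
      ((∃ F, IsBB H N F) ↔ NoMobileClass H N)) := by
  have h1 : (∃ F, IsBB H N F) → NoMobileClass H N := fun h X j z hz hm =>
    hm.ne_zero (vanish_of_bb h X j z hz)
  refine ⟨fun n hn => main hN hCov hn, h1, fun h => ⟨h1, fun h2 => bb_of_vanish hN ?_⟩⟩
  intro X j z hz
  by_contra h0
  exact h2 X j z hz (h X j z hz h0)

end Pool.Agent.Results.MP_08891c_ag.MobileObstructions
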